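import Pool.Agent.H68.L3.C4
import Pool.Agent.H68.L3.C5
import Pool.Agent.H68.L3.C6
import Pool.Agent.H68.L3.C7
import Pool.Agent.H68.F9.OTab

/-! All checks of the tables. -/

set_option autoImplicit false
set_option maxRecDepth 100000
open Finset

namespace Pool.Agent.H68.L3

noncomputable section

open Pool.Agent.N443 (st_eq al_true)
open Pool.Agent.H68.F7 (RM RA RB Q1 Q2 CQ)

theorem ckb_spec {n b m : ℕ} (h : ckb n b = true) (h1 : b ≤ m) (h2 : m < b + n) :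
    F9.ckA BL GK cc iv of qp iq BX CL OT OM om B5 DM m = true := by
  have h3 := al_true h (show m - b < n by omega)
  rw [st_eq, show Nat.add (m - b) b = m from Nat.sub_add_cancel h1] at h3
  exact h3

theorem ckA_all {m : ℕ} (hm : m < 1024) : F9.ckA BL GK cc iv of qp iq BX CL OT OM om B5 DM m = true := by
  rcases Nat.lt_or_ge m 16 with h0 | h0
  · exact ckb_spec cb0 (by omega) (by omega)
  rcases Nat.lt_or_ge m 32 with h1 | h1
  · exact ckb_spec cb1 (by omega) (by omega)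
  rcases Nat.lt_or_ge m 48 with h2 | h2
  · exact ckb_spec cb2 (by omega) (by omega)
  rcases Nat.lt_or_ge m 64 with h3 | h3
  · exact ckb_spec cb3 (by omega) (by omega)
  rcases Nat.lt_or_ge m 80 with h4 | h4
  · exact ckb_spec cb4 (by omega) (by omega)
  rcases Nat.lt_or_ge m 96 with h5 | h5
  · exact ckb_spec cb5 (by omega) (by omega)
  rcases Nat.lt_or_ge m 112 with h6 | h6
  · exact ckb_spec cb6 (by omega) (by omega)
  rcases Nat.lt_or_ge m 128 with h7 | h7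
  · exact ckb_spec cb7 (by omega) (by omega)
  rcases Nat.lt_or_ge m 144 with h8 | h8
  · exact ckb_spec cb8 (by omega) (by omega)
  rcases Nat.lt_or_ge m 160 with h9 | h9
  · exact ckb_spec cb9 (by omega) (by omega)
  rcases Nat.lt_or_ge m 176 with h10 | h10
  · exact ckb_spec cb10 (by omega) (by omega)
  rcases Nat.lt_or_ge m 192 with h11 | h11
  · exact ckb_spec cb11 (by omega) (by omega)
  rcases Nat.lt_or_ge m 208 with h12 | h12
  · exact ckb_spec cb12 (by omega) (by omega)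
  rcases Nat.lt_or_ge m 224 with h13 | h13
  · exact ckb_spec cb13 (by omega) (by omega)
  rcases Nat.lt_or_ge m 240 with h14 | h14
  · exact ckb_spec cb14 (by omega) (by omega)
  rcases Nat.lt_or_ge m 256 with h15 | h15
  · exact ckb_spec cb15 (by omega) (by omega)
  rcases Nat.lt_or_ge m 272 with h16 | h16
  · exact ckb_spec cb16 (by omega) (by omega)
  rcases Nat.lt_or_ge m 288 with h17 | h17
  · exact ckb_spec cb17 (by omega) (by omega)
  rcases Nat.lt_or_ge m 304 with h18 | h18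
  · exact ckb_spec cb18 (by omega) (by omega)
  rcases Nat.lt_or_ge m 320 with h19 | h19
  · exact ckb_spec cb19 (by omega) (by omega)
  rcases Nat.lt_or_ge m 336 with h20 | h20
  · exact ckb_spec cb20 (by omega) (by omega)
  rcases Nat.lt_or_ge m 352 with h21 | h21
  · exact ckb_spec cb21 (by omega) (by omega)
  rcases Nat.lt_or_ge m 368 with h22 | h22
  · exact ckb_spec cb22 (by omega) (by omega)
  rcases Nat.lt_or_ge m 384 with h23 | h23
  · exact ckb_spec cb23 (by omega) (by omega)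
  rcases Nat.lt_or_ge m 400 with h24 | h24
  · exact ckb_spec cb24 (by omega) (by omega)
  rcases Nat.lt_or_ge m 416 with h25 | h25
  · exact ckb_spec cb25 (by omega) (by omega)
  rcases Nat.lt_or_ge m 432 with h26 | h26
  · exact ckb_spec cb26 (by omega) (by omega)
  rcases Nat.lt_or_ge m 448 with h27 | h27
  · exact ckb_spec cb27 (by omega) (by omega)
  rcases Nat.lt_or_ge m 464 with h28 | h28
  · exact ckb_spec cb28 (by omega) (by omega)
  rcases Nat.lt_or_ge m 480 with h29 | h29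
  · exact ckb_spec cb29 (by omega) (by omega)
  rcases Nat.lt_or_ge m 496 with h30 | h30
  · exact ckb_spec cb30 (by omega) (by omega)
  rcases Nat.lt_or_ge m 512 with h31 | h31
  · exact ckb_spec cb31 (by omega) (by omega)
  rcases Nat.lt_or_ge m 528 with h32 | h32
  · exact ckb_spec cb32 (by omega) (by omega)
  rcases Nat.lt_or_ge m 544 with h33 | h33
  · exact ckb_spec cb33 (by omega) (by omega)
  rcases Nat.lt_or_ge m 560 with h34 | h34
  · exact ckb_spec cb34 (by omega) (by omega)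
  rcases Nat.lt_or_ge m 576 with h35 | h35
  · exact ckb_spec cb35 (by omega) (by omega)
  rcases Nat.lt_or_ge m 592 with h36 | h36
  · exact ckb_spec cb36 (by omega) (by omega)
  rcases Nat.lt_or_ge m 608 with h37 | h37
  · exact ckb_spec cb37 (by omega) (by omega)
  rcases Nat.lt_or_ge m 624 with h38 | h38
  · exact ckb_spec cb38 (by omega) (by omega)
  rcases Nat.lt_or_ge m 640 with h39 | h39
  · exact ckb_spec cb39 (by omega) (by omega)
  rcases Nat.lt_or_ge m 656 with h40 | h40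
  · exact ckb_spec cb40 (by omega) (by omega)
  rcases Nat.lt_or_ge m 672 with h41 | h41
  · exact ckb_spec cb41 (by omega) (by omega)
  rcases Nat.lt_or_ge m 688 with h42 | h42
  · exact ckb_spec cb42 (by omega) (by omega)
  rcases Nat.lt_or_ge m 704 with h43 | h43
  · exact ckb_spec cb43 (by omega) (by omega)
  rcases Nat.lt_or_ge m 720 with h44 | h44
  · exact ckb_spec cb44 (by omega) (by omega)
  rcases Nat.lt_or_ge m 736 with h45 | h45
  · exact ckb_spec cb45 (by omega) (by omega)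
  rcases Nat.lt_or_ge m 752 with h46 | h46
  · exact ckb_spec cb46 (by omega) (by omega)
  rcases Nat.lt_or_ge m 768 with h47 | h47
  · exact ckb_spec cb47 (by omega) (by omega)
  rcases Nat.lt_or_ge m 784 with h48 | h48
  · exact ckb_spec cb48 (by omega) (by omega)
  rcases Nat.lt_or_ge m 800 with h49 | h49
  · exact ckb_spec cb49 (by omega) (by omega)
  rcases Nat.lt_or_ge m 816 with h50 | h50
  · exact ckb_spec cb50 (by omega) (by omega)
  rcases Nat.lt_or_ge m 832 with h51 | h51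
  · exact ckb_spec cb51 (by omega) (by omega)
  rcases Nat.lt_or_ge m 848 with h52 | h52
  · exact ckb_spec cb52 (by omega) (by omega)
  rcases Nat.lt_or_ge m 864 with h53 | h53
  · exact ckb_spec cb53 (by omega) (by omega)
  rcases Nat.lt_or_ge m 880 with h54 | h54
  · exact ckb_spec cb54 (by omega) (by omega)
  rcases Nat.lt_or_ge m 896 with h55 | h55
  · exact ckb_spec cb55 (by omega) (by omega)
  rcases Nat.lt_or_ge m 912 with h56 | h56
  · exact ckb_spec cb56 (by omega) (by omega)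
  rcases Nat.lt_or_ge m 928 with h57 | h57
  · exact ckb_spec cb57 (by omega) (by omega)
  rcases Nat.lt_or_ge m 944 with h58 | h58
  · exact ckb_spec cb58 (by omega) (by omega)
  rcases Nat.lt_or_ge m 960 with h59 | h59
  · exact ckb_spec cb59 (by omega) (by omega)
  rcases Nat.lt_or_ge m 976 with h60 | h60
  · exact ckb_spec cb60 (by omega) (by omega)
  rcases Nat.lt_or_ge m 992 with h61 | h61
  · exact ckb_spec cb61 (by omega) (by omega)
  rcases Nat.lt_or_ge m 1008 with h62 | h62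
  · exact ckb_spec cb62 (by omega) (by omega)
  exact ckb_spec cb63 (by omega) (by omega)

def CLP : List (List ℕ × Finset (Fin 7)) := [([0, 1, 2, 3], {0, 1, 2, 3}), ([0, 4, 5, 6], {0, 1, 2, 4}), ([1, 4, 7, 8], {0, 1, 3, 4}), ([2, 5, 7, 9], {0, 2, 3, 4}), ([3, 6, 8, 9], {1, 2, 3, 4})]
def XAP : List ((List ℕ × List ℕ) × Finset (Fin 7)) := [(([0], [4, 5, 6]), {0, 1, 2, 5}), (([1], [4, 7, 8]), {0, 1, 3, 5}), (([4], [4, 0, 1]), {0, 1, 4, 5}), (([2], [5, 7, 9]), {0, 2, 3, 5}), (([5], [5, 0, 2]), {0, 2, 4, 5}), (([7], [7, 0, 3]), {0, 3, 4, 5}), (([3], [6, 8, 9]), {1, 2, 3, 5}), (([6], [6, 1, 2]), {1, 2, 4, 5}), (([8], [8, 1, 3]), {1, 3, 4, 5}), (([9], [9, 2, 3]), {2, 3, 4, 5})]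
def XBP : List ((List ℕ × List ℕ) × Finset (Fin 7)) := [(([0], [4, 5, 6]), {0, 1, 2, 6}), (([1], [4, 7, 8]), {0, 1, 3, 6}), (([4], [4, 0, 1]), {0, 1, 4, 6}), (([2], [5, 7, 9]), {0, 2, 3, 6}), (([5], [5, 0, 2]), {0, 2, 4, 6}), (([7], [7, 0, 3]), {0, 3, 4, 6}), (([3], [6, 8, 9]), {1, 2, 3, 6}), (([6], [6, 1, 2]), {1, 2, 4, 6}), (([8], [8, 1, 3]), {1, 3, 4, 6}), (([9], [9, 2, 3]), {2, 3, 4, 6})]
def X1P : List ((List ℕ × List ℕ) × Finset (Fin 7)) := [(([0], [0, 1, 5]), {0, 1, 2, 3}), (([0], [2, 3, 6]), {0, 1, 2, 4}), (([], [0, 2, 4, 7]), {0, 1, 3, 4}), (([], [1, 3, 4, 8]), {0, 2, 3, 4}), (([], [5, 6, 7, 8]), {1, 2, 3, 4})]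
def X2P : List ((List ℕ × List ℕ) × Finset (Fin 7)) := [(([0], [0, 1, 5]), {0, 1, 2, 5}), (([0], [2, 3, 6]), {0, 1, 2, 6}), (([], [0, 2, 4, 7]), {0, 1, 5, 6}), (([], [1, 3, 4, 8]), {0, 2, 5, 6}), (([], [5, 6, 7, 8]), {1, 2, 5, 6})]
theorem CLP_fst : CLP.map Prod.fst = CL := rfl
theorem XAP_fst : XAP.map Prod.fst = BX := rfl
theorem XBP_fst : XBP.map Prod.fst = BX := rfl
theorem X1P_fst : X1P.map Prod.fst = BX3 := rfl
theorem X2P_fst : X2P.map Prod.fst = BX3 := rfl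
theorem CLP_ok : ∀ x ∈ CLP, x.2.card = 4 ∧ ∀ Q ∈ powersetCard 3 x.2, ∃ i ∈ x.1, i < 10 ∧ RM.getD i ∅ = Q := by decide +kernel
theorem XAP_ok : ∀ x ∈ XAP, x.2.card = 4 ∧ ∀ Q ∈ powersetCard 3 x.2,
    (∃ i ∈ x.1.1, i < 10 ∧ RM.getD i ∅ = Q) ∨ ∃ i ∈ x.1.2, i < 10 ∧ RA.getD i ∅ = Q := by decide +kernel
theorem XBP_ok : ∀ x ∈ XBP, x.2.card = 4 ∧ ∀ Q ∈ powersetCard 3 x.2,
    (∃ i ∈ x.1.1, i < 10 ∧ RM.getD i ∅ = Q) ∨ ∃ i ∈ x.1.2, i < 10 ∧ RB.getD i ∅ = Q := by decide +kernel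
theorem X1P_ok : ∀ x ∈ X1P, x.2.card = 4 ∧ ∀ Q ∈ powersetCard 3 x.2,
    (0 ∈ x.1.1 ∧ Q = {0, 1, 2}) ∨ ∃ i ∈ x.1.2, i < 9 ∧ Q1.getD i ∅ = Q := by decide +kernel
theorem X2P_ok : ∀ x ∈ X2P, x.2.card = 4 ∧ ∀ Q ∈ powersetCard 3 x.2,
    (0 ∈ x.1.1 ∧ Q = {0, 1, 2}) ∨ ∃ i ∈ x.1.2, i < 9 ∧ Q2.getD i ∅ = Q := by decide +kernel

theorem ot_lt : Nat.blt OTn (Nat.pow 2 40960) = true := by decide +kernel
theorem ot_tab : F9.ckT QQ OTn = true := by decide +kernel
theorem ot_le : F9.ckO QQ OM = true := by decide +kernel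
theorem ot_p : F9.ckP QQ = true := by decide +kernel

theorem tb5 : F9.T5 4 BL GK cc iv of qp iq BX CL OT OM om (fun _ => F9.q5 QQ) B5 DM := by
  refine ⟨by unfold DM; norm_num, fun _ _ => F9.OT_eq ot_lt ot_tab, fun _ _ => F9.OM_le ot_le, fun _ _ => (F9.P_eq ot_p).1,
    fun _ _ => (F9.P_eq ot_p).2.1, fun _ _ => (F9.P_eq ot_p).2.2.1, fun _ _ => (F9.P_eq ot_p).2.2.2,
    fun m hm => ckA_all hm, fun l hl => ?_, fun l hl => ?_, fun l hl => ?_⟩
  · rw [← CLP_fst] at hl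
    obtain ⟨x, hx, rfl⟩ := List.mem_map.mp hl
    exact ⟨x.2, CLP_ok x hx⟩
  · rw [← XAP_fst] at hl
    obtain ⟨x, hx, rfl⟩ := List.mem_map.mp hl
    exact ⟨x.2, XAP_ok x hx⟩
  · rw [← XBP_fst] at hl
    obtain ⟨x, hx, rfl⟩ := List.mem_map.mp hl
    exact ⟨x.2, XBP_ok x hx⟩

theorem TG_lt (b g : ℕ) : TG b g < 2 ^ 20480 := by
  unfold TG
  refine lt_of_le_of_lt (Nat.and_le_right (m := 2 ^ 20480 - 1)) (Nat.sub_lt (by positivity) one_pos)

theorem tb3 : F7.T3 4 TG G3 cc3 of3 qp3 iq3 BX3 B3 DM3 := by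
  refine ⟨by unfold DM3; norm_num, TG_lt, fun b hb => ?_, fun l hl => ?_, fun l hl => ?_⟩
  · rcases (show b = 0 ∨ b = 1 by omega) with rfl | rfl
    · exact c30
    · exact c31
  · rw [← X1P_fst] at hl
    obtain ⟨x, hx, rfl⟩ := List.mem_map.mp hl
    exact ⟨x.2, X1P_ok x hx⟩
  · rw [← X2P_fst] at hl
    obtain ⟨x, hx, rfl⟩ := List.mem_map.mp hl
    exact ⟨x.2, X2P_ok x hx⟩

end

end Pool.Agent.H68.L3
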