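import Pool.Agent.H68.L3.Ker

/-! Kernel computation. -/

set_option autoImplicit false
set_option maxRecDepth 100000
set_option maxHeartbeats 4000000

namespace Pool.Agent.H68.L3

/-- representatives -/
def g2 : List (List ℕ) := [[1032262, 1032261, 1032260], [1032257, 1032256, 1032254], [1032253, 1032252, 1032249], [1032248, 1032246, 1032244], [1032240, 1032238, 1032237], [1032236, 1032235, 1032234], [1032233, 1032232, 1032231], [1032230, 1032229, 1032228], [1032227, 1032226, 1032225], [1032224, 1032206, 1032205], [1032204, 1032201, 1032200], [1032199, 1032198, 1032197], [1032196, 1032193, 1032192], [1017134, 1017132, 1017129], [1017128, 1017120, 1017102], [1017101, 1017100, 1017098], [1017097, 1017096, 1017093], [1017092, 1017088, 1016846], [1016844, 1016842, 1016840], [1016832, 1016078, 1016077], [1016076, 1016073, 1016072], [1016071, 1016070, 1016069], [1016068, 1016065, 1016064], [1015838, 1015836, 1015834], [1015832, 1015824, 1015822], [1015820, 1015819, 1015818], [1015816, 1015811, 1015810], [1015808, 983054, 983052], [983048, 983040, 970935], [970934, 970932, 970928]]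

theorem kk2 : ∀ l ∈ g2, chkl l = true := by
  simp only [g2, List.forall_mem_cons, List.not_mem_nil, false_implies, implies_true, and_true]
  exact ⟨by decide +kernel, by decide +kernel, by decide +kernel, by decide +kernel, by decide +kernel, by decide +kernel, by decide +kernel, by decide +kernel, by decide +kernel, by decide +kernel, by decide +kernel, by decide +kernel, by decide +kernel, by decide +kernel, by decide +kernel, by decide +kernel, by decide +kernel, by decide +kernel, by decide +kernel, by decide +kernel, by decide +kernel, by decide +kernel, by decide +kernel, by decide +kernel, by decide +kernel, by decide +kernel, by decide +kernel, by decide +kernel, by decide +kernel, by decide +kernel⟩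

end Pool.Agent.H68.L3
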