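import Pool.Agent.H68.L3.K2

/-! Kernel computation. -/

set_option autoImplicit false
set_option maxRecDepth 100000
set_option maxHeartbeats 4000000

namespace Pool.Agent.H68.L3

/-- representatives -/
def g6 : List (List ℕ) := [[959753, 959752, 959750], [959749, 959748, 959747], [959746, 959745, 959744], [959596, 959594, 959592], [959590, 959589, 959588], [959587, 959586, 959585], [959584, 959576, 959574], [959572, 959570, 959568], [959563, 959562, 959561], [959560, 959557, 959556], [959555, 959554, 959553], [959552, 959546, 959545], [959544, 959538, 959537], [959536, 959529, 959528], [959523, 959522, 959521], [959520, 959506, 959505], [959504, 959489, 959488], [958849, 958848, 958763], [958762, 958761, 958760], [958757, 958756, 958755], [958754, 958753, 958752], [958746, 958745, 958744], [958741, 958740, 958739], [958738, 958737, 958736], [958731, 958730, 958729], [958728, 958725, 958724], [958723, 958722, 958721], [958720, 958554, 958552], [958551, 958550, 958549], [958548, 958546, 958544]]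

theorem kk6 : ∀ l ∈ g6, chkl l = true := by
  simp only [g6, List.forall_mem_cons, List.not_mem_nil, false_implies, implies_true, and_true]
  exact ⟨by decide +kernel, by decide +kernel, by decide +kernel, by decide +kernel, by decide +kernel, by decide +kernel, by decide +kernel, by decide +kernel, by decide +kernel, by decide +kernel, by decide +kernel, by decide +kernel, by decide +kernel, by decide +kernel, by decide +kernel, by decide +kernel, by decide +kernel, by decide +kernel, by decide +kernel, by decide +kernel, by decide +kernel, by decide +kernel, by decide +kernel, by decide +kernel, by decide +kernel, by decide +kernel, by decide +kernel, by decide +kernel, by decide +kernel, by decide +kernel⟩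

end Pool.Agent.H68.L3
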