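import Pool.Agent.H68.L3.K5

/-! Kernel computation. -/

set_option autoImplicit false
set_option maxRecDepth 100000
set_option maxHeartbeats 4000000

namespace Pool.Agent.H68.L3

/-- representatives -/
def g9 : List (List ℕ) := [[927896, 927889, 927888], [927881, 927880, 927873], [927872, 927772, 927770], [927768, 927764, 927763], [927762, 927760, 927756], [927755, 927754, 927752], [927748, 927747, 927746], [927744, 925833, 925832], [925825, 925824, 925740], [925739, 925738, 925736], [925734, 925732, 925731], [925730, 925728, 925709], [925708, 925705, 925704], [925702, 925701, 925700], [925697, 925696, 917518], [917516, 917512, 917511], [917510, 917508, 917504], [820552, 820550, 820548], [820546, 820544, 820528], [820514, 820512, 820496], [820481, 820480, 820240], [820224, 819528, 819527], [819526, 819524, 819523], [819522, 819520, 819506], [819504, 819491, 819490], [819488, 819474, 819473], [819472, 819457, 819456], [819218, 819216, 819200], [807075, 807074, 807072], [807061, 807060, 807057]]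

theorem kk9 : ∀ l ∈ g9, chkl l = true := by
  simp only [g9, List.forall_mem_cons, List.not_mem_nil, false_implies, implies_true, and_true]
  exact ⟨by decide +kernel, by decide +kernel, by decide +kernel, by decide +kernel, by decide +kernel, by decide +kernel, by decide +kernel, by decide +kernel, by decide +kernel, by decide +kernel, by decide +kernel, by decide +kernel, by decide +kernel, by decide +kernel, by decide +kernel, by decide +kernel, by decide +kernel, by decide +kernel, by decide +kernel, by decide +kernel, by decide +kernel, by decide +kernel, by decide +kernel, by decide +kernel, by decide +kernel, by decide +kernel, by decide +kernel, by decide +kernel, by decide +kernel, by decide +kernel⟩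

end Pool.Agent.H68.L3
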